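import Pool.Agent.Helper69.MC.StB
import Pool.Agent.Helper69.MF.StA

/-!
# Project MC (MP_9583f0_gt), module POS: a small disc can not be removed
-/

set_option autoImplicit false

open Set Topology Filter MeasureTheory
open Pool.Agent.Helper31.CY Pool.Agent.Helper69.MF Pool.Agent.Helper69.MC

namespace Pool.Agent.Helper87.MC

theorem nsq (w : E3) : ‖w‖ ^ 2 = dt w w := by
  rw [EuclideanSpace.norm_sq_eq]
  simp [Fin.sum_univ_three, dt]
  ring

theorem dt_add_l (x y z : E3) : dt (x + y) z = dt x z + dt y z := by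
  simp only [dt, PiLp.add_apply]; ring

theorem dt_sub_l (x y z : E3) : dt (x - y) z = dt x z - dt y z := by
  simp only [dt, PiLp.sub_apply]; ring

theorem dt_smul_l (a : ℝ) (x z : E3) : dt (a • x) z = a * dt x z := by
  simp only [dt, PiLp.smul_apply, smul_eq_mul]; ring

theorem dt_sub_r (x y z : E3) : dt z (x - y) = dt z x - dt z y := by
  simp only [dt, PiLp.sub_apply]; ring

theorem dt_add_r (x y z : E3) : dt z (x + y) = dt z x + dt z y := by
  simp only [dt, PiLp.add_apply]; ring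

theorem dt_smul_r (a : ℝ) (x z : E3) : dt z (a • x) = a * dt z x := by
  simp only [dt, PiLp.smul_apply, smul_eq_mul]; ring

theorem dt_comm' (x y : E3) : dt x y = dt y x := by
  simp only [dt]; ring

/-- the projection -/
noncomputable def PR (q e g : E3) (x : E3) : E3 := dt (x - q) e • e + dt (x - q) g • g

theorem PR_lip (q e g : E3) (h1 : dt e e = 1) (h2 : dt g g = 1) (h3 : dt e g = 0) :
    LipschitzWith 1 (PR q e g) := by
  apply LipschitzWith.of_dist_le_mul
  intro x y
  rw [dist_eq_norm, dist_eq_norm, NNReal.coe_one, one_mul]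
  have hxy : PR q e g x - PR q e g y = dt (x - y) e • e + dt (x - y) g • g := by
    have e1 : dt (x - y) e = dt (x - q) e - dt (y - q) e := by
      rw [← dt_sub_l]; congr 1; abel
    have e2 : dt (x - y) g = dt (x - q) g - dt (y - q) g := by
      rw [← dt_sub_l]; congr 1; abel
    rw [e1, e2]
    simp only [PR, sub_smul]
    abel
  rw [hxy]
  set w := x - y with hw
  have hsq : ‖dt w e • e + dt w g • g‖ ^ 2 ≤ ‖w‖ ^ 2 := by
    rw [nsq, nsq]
    have hge : dt g e = 0 := by rw [dt_comm']; exact h3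
    have k1 : dt (dt w e • e + dt w g • g) (dt w e • e + dt w g • g) =
        dt w e ^ 2 + dt w g ^ 2 := by
      simp only [dt_add_l, dt_add_r, dt_smul_l, dt_smul_r, h1, h2, h3, hge]
      ring
    have k2 : dt (w - (dt w e • e + dt w g • g)) (w - (dt w e • e + dt w g • g)) =
        dt w w - dt w e ^ 2 - dt w g ^ 2 := by
      simp only [dt_add_l, dt_add_r, dt_smul_l, dt_smul_r, dt_sub_l, dt_sub_r, h1, h2, h3, hge,
        dt_comm' e w, dt_comm' g w]
      ring
    have k3 : 0 ≤ dt (w - (dt w e • e + dt w g • g)) (w - (dt w e • e + dt w g • g)) := by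
      rw [← nsq]; positivity
    rw [k1]
    linarith
  exact le_of_sq_le_sq hsq (norm_nonneg _)

/-- sign change -/
theorem sgn (φ : ℝ → ℝ) (c : ℝ) (hc : c ≠ 0) (h0 : φ 0 = 0) (hd : HasDerivAt φ c 0) (R : ℝ)
    (hR : 0 < R) : ∃ ε : ℝ, 0 < ε ∧ ε < R ∧ 0 < c * φ ε ∧ c * φ (-ε) < 0 := by
  rw [hasDerivAt_iff_tendsto_slope] at hd
  have hev : ∀ᶠ t in 𝓝[≠] (0 : ℝ), 0 < c * slope φ 0 t := by
    have h1 : Tendsto (fun t => c * slope φ 0 t) (𝓝[≠] 0) (𝓝 (c * c)) := hd.const_mul c
    exact h1.eventually (lt_mem_nhds (mul_self_pos.2 hc))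
  rw [eventually_nhdsWithin_iff, Metric.eventually_nhds_iff] at hev
  obtain ⟨η, hη, hev⟩ := hev
  refine ⟨min (η / 2) (R / 2), by positivity, ?_, ?_, ?_⟩
  · exact lt_of_le_of_lt (min_le_right _ _) (by linarith)
  · have hm : 0 < min (η / 2) (R / 2) := by positivity
    have hl : min (η / 2) (R / 2) < η := lt_of_le_of_lt (min_le_left _ _) (by linarith)
    have h2 := @hev (min (η / 2) (R / 2)) (by
      rw [Real.dist_eq, sub_zero, abs_of_pos hm]; exact hl) (by
      simp only [mem_compl_iff, mem_singleton_iff]; exact hm.ne')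
    rw [slope_def_field, h0, sub_zero, sub_zero] at h2
    have h3 : c * φ (min (η / 2) (R / 2)) =
        (c * (φ (min (η / 2) (R / 2)) / min (η / 2) (R / 2))) * min (η / 2) (R / 2) := by
      field_simp
    rw [h3]
    positivity
  · have hm : 0 < min (η / 2) (R / 2) := by positivity
    have hl : min (η / 2) (R / 2) < η := lt_of_le_of_lt (min_le_left _ _) (by linarith)
    have h2 := @hev (-min (η / 2) (R / 2)) (by
      rw [Real.dist_eq, sub_zero, abs_neg, abs_of_pos hm]; exact hl) (by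
      simp only [mem_compl_iff, mem_singleton_iff]; exact (neg_lt_zero.mpr hm).ne)
    rw [slope_def_field, h0, sub_zero, sub_zero] at h2
    have h3 : c * φ (-min (η / 2) (R / 2)) =
        -((c * (φ (-min (η / 2) (R / 2)) / -min (η / 2) (R / 2))) * min (η / 2) (R / 2)) := by
      field_simp
    rw [h3]
    have := mul_pos h2 hm
    linarith

theorem posON (hLIN : StLIN) (S U : Set E3) (f : E3 → ℝ) (q N e g : E3) (hU : IsOpen U)
    (hq : q ∈ U) (hf : ContDiffOn ℝ 2 f U) (hN : fderiv ℝ f q N ≠ 0) (hON : ON e g N)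
    (hS : ∀ x ∈ U, x ∈ S ↔ f x = 0) (hqS : q ∈ S) (r : ℝ) (hr : 0 < r) :
    0 < ar (S ∩ Metric.ball q r) := by
  obtain ⟨h11, h22, h33, h12, h13, h23⟩ := hON
  have hfq : f q = 0 := (hS q hq).1 hqS
  have hnN : ‖N‖ = 1 := by
    have := nsq N
    rw [h33] at this
    nlinarith [norm_nonneg N]
  have hne : ‖e‖ = 1 := by
    have := nsq e
    rw [h11] at this
    nlinarith [norm_nonneg e]
  have hng : ‖g‖ = 1 := by
    have := nsq g
    rw [h22] at this
    nlinarith [norm_nonneg g]
  -- radius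
  obtain ⟨R0, hR0, hR0U⟩ := Metric.isOpen_iff.1 hU q hq
  set R := min R0 r with hRdef
  have hR : 0 < R := by positivity
  have hRU : Metric.ball q R ⊆ U := (Metric.ball_subset_ball (min_le_left _ _)).trans hR0U
  have hRr : Metric.ball q R ⊆ Metric.ball q r := Metric.ball_subset_ball (min_le_right _ _)
  set c := fderiv ℝ f q N with hc
  have hfd : DifferentiableAt ℝ f q :=
    (hf.differentiableOn (by norm_num)).differentiableAt (hU.mem_nhds hq)
  have hφ : HasDerivAt (fun t : ℝ => f (q + t • N)) c 0 := by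
    have h1 : HasDerivAt (fun t : ℝ => q + t • N) N 0 := by
      have h2 := ((hasDerivAt_id (0 : ℝ)).smul_const N).const_add q
      simpa using h2
    have h3 : HasFDerivAt f (fderiv ℝ f q) (q + (0 : ℝ) • N) := by
      rw [zero_smul, add_zero]; exact hfd.hasFDerivAt
    exact h3.comp_hasDerivAt (0 : ℝ) h1
  obtain ⟨ε, hε, hεR, hp, hm⟩ := sgn (fun t : ℝ => f (q + t • N)) c hN (by simpa using hfq) hφ
    (R / 4) (by positivity)
  -- the function of three variables
  have hpt : ∀ a b t : ℝ, |a| ≤ R / 4 → |b| ≤ R / 4 → |t| ≤ R / 4 →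
      q + a • e + b • g + t • N ∈ Metric.ball q R := by
    intro a b t ha hb ht
    rw [Metric.mem_ball, dist_eq_norm]
    have h1 : q + a • e + b • g + t • N - q = a • e + b • g + t • N := by abel
    rw [h1]
    have h2 : ‖a • e + b • g + t • N‖ ≤ |a| + |b| + |t| := by
      refine (norm_add₃_le).trans ?_
      rw [norm_smul, norm_smul, norm_smul, hne, hng, hnN]
      simp
    linarith
  have hcont : ∀ t : ℝ, |t| ≤ R / 4 →
      ContinuousAt (fun p : ℝ × ℝ => c * f (q + p.1 • e + p.2 • g + t • N)) (0, 0) := by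
    intro t ht
    have h1 : ContinuousAt f (q + (0 : ℝ) • e + (0 : ℝ) • g + t • N) := by
      refine hf.continuousOn.continuousAt (hU.mem_nhds (hRU (hpt 0 0 t ?_ ?_ ht)))
      · rw [abs_zero]; positivity
      · rw [abs_zero]; positivity
    have h2 : ContinuousAt (fun p : ℝ × ℝ => q + p.1 • e + p.2 • g + t • N) (0, 0) := by
      apply Continuous.continuousAt
      fun_prop
    exact continuousAt_const.mul (ContinuousAt.comp (f := fun p : ℝ × ℝ =>
      q + p.1 • e + p.2 • g + t • N) (x := (0, 0)) h1 h2)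
  have hev : ∀ᶠ p : ℝ × ℝ in 𝓝 (0, 0), 0 < c * f (q + p.1 • e + p.2 • g + ε • N) ∧
      c * f (q + p.1 • e + p.2 • g + (-ε) • N) < 0 := by
    apply Filter.Eventually.and
    · refine (hcont ε (by rw [abs_of_pos hε]; exact hεR.le)).eventually (lt_mem_nhds ?_)
      simpa using hp
    · refine (hcont (-ε) (by rw [abs_neg, abs_of_pos hε]; exact hεR.le)).eventually
        (gt_mem_nhds ?_)
      simpa using hm
  rw [Metric.eventually_nhds_iff] at hev
  obtain ⟨η, hη, hev⟩ := hev
  set δ := min η (R / 4) with hδdef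
  have hδ : 0 < δ := by positivity
  -- the square
  set A : Set (ℝ × ℝ) := Ioo (-δ) δ ×ˢ Ioo (-δ) δ with hA
  have hAo : IsOpen A := isOpen_Ioo.prod isOpen_Ioo
  have hAn : A.Nonempty := ⟨(0, 0), by simp [hA, hδ]⟩
  have hpos := (hLIN e g N 0 0 A ⟨h11, h22, h33, h12, h13, h23⟩ hAo.measurableSet).2.1 hAo hAn
  have hsub : (fun p : ℝ × ℝ => p.1 • e + p.2 • g) '' A ⊆
      PR q e g '' (S ∩ Metric.ball q r) := by
    rintro _ ⟨⟨a, b⟩, hab, rfl⟩
    obtain ⟨⟨ha1, ha2⟩, ⟨hb1, hb2⟩⟩ := hab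
    simp only at ha1 ha2 hb1 hb2
    have ha : |a| < δ := abs_lt.2 ⟨ha1, ha2⟩
    have hb : |b| < δ := abs_lt.2 ⟨hb1, hb2⟩
    have ha' : |a| ≤ R / 4 := ha.le.trans (min_le_right _ _)
    have hb' : |b| ≤ R / 4 := hb.le.trans (min_le_right _ _)
    obtain ⟨hpp, hmm⟩ := @hev (a, b) (by
      rw [Prod.dist_eq, max_lt_iff, Real.dist_eq, Real.dist_eq]
      simp only [sub_zero]
      exact ⟨ha.trans_le (min_le_left _ _), hb.trans_le (min_le_left _ _)⟩)
    simp only at hpp hmm
    have hci : ContinuousOn (fun t : ℝ => c * f (q + a • e + b • g + t • N)) (Icc (-ε) ε) := by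
      refine continuousOn_const.mul (hf.continuousOn.comp ?_ ?_)
      · apply Continuous.continuousOn
        fun_prop
      · intro t ht
        exact hRU (hpt a b t ha' hb' (abs_le.2 ⟨by linarith [ht.1], by linarith [ht.2]⟩))
    have hiv := intermediate_value_Icc (by linarith : -ε ≤ ε) hci
    obtain ⟨t, ht, ht0⟩ := hiv (show (0 : ℝ) ∈ Icc _ _ from ⟨hmm.le, hpp.le⟩)
    have ht' : |t| ≤ R / 4 := abs_le.2 ⟨by linarith [ht.1], by linarith [ht.2]⟩
    have hxB := hpt a b t ha' hb' ht'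
    have hf0 : f (q + a • e + b • g + t • N) = 0 := by
      rcases mul_eq_zero.1 ht0 with h | h
      · exact absurd h hN
      · exact h
    refine ⟨q + a • e + b • g + t • N, ⟨(hS _ (hRU hxB)).2 hf0, hRr hxB⟩, ?_⟩
    have hx : q + a • e + b • g + t • N - q = a • e + b • g + t • N := by abel
    have hge : dt g e = 0 := by rw [dt_comm']; exact h12
    have hNe : dt N e = 0 := by rw [dt_comm']; exact h13
    have hNg : dt N g = 0 := by rw [dt_comm']; exact h23
    simp only [PR, hx, dt_add_l, dt_smul_l, h11, h22, h12, hge, hNe, hNg, mul_one, mul_zero,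
      add_zero, zero_add]
  have hle : ar (PR q e g '' (S ∩ Metric.ball q r)) ≤ ar (S ∩ Metric.ball q r) := by
    have h1 := (PR_lip q e g h11 h22 h12).hausdorffMeasure_image_le (by norm_num : (0 : ℝ) ≤ 2)
      (S ∩ Metric.ball q r)
    simpa [ar] using h1
  exact lt_of_lt_of_le hpos ((measure_mono hsub).trans hle)

theorem exBv (L : E3 →L[ℝ] ℝ) (hL : L ≠ 0) : ∃ i : Fin 3, L (bv i) ≠ 0 := by
  by_contra hcon
  simp only [not_exists, not_not] at hcon
  apply hL
  ext w
  have hw : w = w 0 • bv 0 + w 1 • bv 1 + w 2 • bv 2 := by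
    ext i
    fin_cases i <;> simp [bv]
  rw [hw]
  simp [hcon]

theorem posRg (hLIN : StLIN) (S : Set E3) (q : E3) (hqS : q ∈ S) (hreg : RegP S q) (r : ℝ)
    (hr : 0 < r) : 0 < ar (S ∩ Metric.ball q r) := by
  obtain ⟨f, U, hU, hq, hf, hne, hS, -⟩ := hreg
  obtain ⟨i, hi⟩ := exBv _ (hne q hq)
  fin_cases i
  · refine posON hLIN S U f q (bv 0) (bv 1) (bv 2) hU hq hf hi ?_ hS hqS r hr
    simp [ON, dt, bv]
  · refine posON hLIN S U f q (bv 1) (bv 0) (bv 2) hU hq hf hi ?_ hS hqS r hr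
    simp [ON, dt, bv]
  · refine posON hLIN S U f q (bv 2) (bv 0) (bv 1) hU hq hf hi ?_ hS hqS r hr
    simp [ON, dt, bv]

theorem hPOS : Pool.Agent.Helper69.MF.StFNT → Pool.Agent.Helper69.MF.StLIN → StPOS := by
  intro hFNT hLIN S Γ 𝒞 hMPS hMnz q hqS hreg r hr
  obtain ⟨hc, -, hmin⟩ := hMnz
  have hpos := posRg hLIN S q hqS hreg r hr
  have hfin := hFNT S Γ hMPS
  have hc' : IsCompact (S \ Metric.ball q r) := hc.diff Metric.isOpen_ball
  by_contra hcon
  have hsp : Spans 𝒞 (S \ Metric.ball q r) := by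
    intro γ hγ
    by_contra hno
    apply hcon
    refine ⟨γ, hγ, fun s hs => ?_⟩
    by_contra hb
    exact hno ⟨s, hs, hb⟩
  have h1 := hmin _ hc' hsp
  have h2 : ar (S ∩ Metric.ball q r) + ar (S \ Metric.ball q r) = ar S :=
    measure_inter_add_sdiff S measurableSet_ball
  have h3 : ar (S \ Metric.ball q r) ≠ ⊤ :=
    ((measure_mono sdiff_subset).trans_lt hfin).ne
  have h4 : ar (S \ Metric.ball q r) < ar (S \ Metric.ball q r) + ar (S ∩ Metric.ball q r) :=
    ENNReal.lt_add_right h3 hpos.ne'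
  rw [add_comm, h2] at h4
  exact absurd h1 (not_le.2 h4)

end Pool.Agent.Helper87.MC
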